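import Pool.Agent.helper63.Dg4.Spec

/-!
# Row UPW of the project dg4: the upward closure of a `Σ⁰₄` set is a `Σ⁰₄` set
-/

set_option autoImplicit false

namespace Pool.Agent.helper63.Dg4

open Encodable Pool.Agent.helper63.Diag

/-- a point outside a closed set is separated from it by an initial segment -/
theorem upw_sep {C : Set (ℕ → ℕ)} (hC : IsClosed C) {f : ℕ → ℕ} (hf : f ∉ C) :
    ∃ K, ∀ f' ∈ C, res f' K ≠ res f K := by
  have hU : IsOpen Cᶜ := hC.isOpen_compl
  obtain ⟨I, u, hu, hsub⟩ := isOpen_pi_iff.1 hU f hf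
  refine ⟨I.sup id + 1, fun f' hf' he => ?_⟩
  have h1 : f' ∈ Cᶜ := by
    apply hsub
    intro i hi
    have hlt : i < I.sup id + 1 := Nat.lt_succ_of_le (Finset.le_sup (f := id) hi)
    rw [res_inj he i hlt]
    exact (hu i hi).2
  exact h1 hf'

/-- the closed set of the `X` for which the partial function given by `D` may lie in `C` -/
def upwF (D : List ℕ → ℕ × ℕ → Prop) (C : Set (ℕ → ℕ)) : Set (ℕ → ℕ) :=
  {X | ∀ τ : List ℕ, (∀ f ∈ C, res f τ.length ≠ τ) →
    ¬ ∀ j < τ.length, ∃ k, D (res X k) (j, τ.getD j 0)}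

theorem upwF_closed (D : List ℕ → ℕ × ℕ → Prop) (C : Set (ℕ → ℕ)) : IsClosed (upwF D C) := by
  have h1 : upwF D C = ⋂ τ : List ℕ, ⋂ _ : (∀ f ∈ C, res f τ.length ≠ τ),
      (⋂ j ∈ Finset.range τ.length, ⋃ k, {X : ℕ → ℕ | D (res X k) (j, τ.getD j 0)})ᶜ := by
    ext X
    simp only [upwF, Set.mem_ofPred_eq, Set.mem_iInter, Set.mem_compl_iff, Finset.mem_range,
      Set.mem_iUnion]
  rw [h1]
  refine isClosed_iInter fun τ => isClosed_iInter fun _ => ?_
  refine IsOpen.isClosed_compl ?_
  refine isOpen_biInter_finset fun j _ => isOpen_iUnion fun k => ?_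
  exact (isClopen_dep k (fun l => D l (j, τ.getD j 0))).isOpen

/-- the closed set of the `X` for which `z` and `z'` are not both values at `x` -/
def upwS (D : List ℕ → ℕ × ℕ → Prop) (x z z' k k' : ℕ) : Set (ℕ → ℕ) :=
  {X | z ≠ z' → D (res X k) (x, z) → ¬ D (res X k') (x, z')}

theorem upwS_closed (D : List ℕ → ℕ × ℕ → Prop) (x z z' k k' : ℕ) :
    IsClosed (upwS D x z z' k k') := by
  by_cases h : z ≠ z'
  · have e : upwS D x z z' k k' = {X : ℕ → ℕ | ¬ D (res X k) (x, z)} ∪
        {X : ℕ → ℕ | ¬ D (res X k') (x, z')} := by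
      ext X
      show (z ≠ z' → D (res X k) (x, z) → ¬ D (res X k') (x, z')) ↔
        (¬ D (res X k) (x, z) ∨ ¬ D (res X k') (x, z'))
      constructor
      · intro H
        by_cases h1 : D (res X k) (x, z)
        · exact Or.inr (H h h1)
        · exact Or.inl h1
      · rintro (H | H) _ h1
        · exact absurd h1 H
        · exact H
    rw [e]
    refine IsClosed.union ?_ ?_
    · exact (isClopen_dep k (fun l => ¬ D l (x, z))).isClosed
    · exact (isClopen_dep k' (fun l => ¬ D l (x, z'))).isClosed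
  · have e : upwS D x z z' k k' = Set.univ :=
      Set.eq_univ_of_forall fun X hh => absurd hh h
    rw [e]
    exact isClosed_univ

open Classical in
/-- the closed sets of the conclusion -/
noncomputable def upwC (C : ℕ → ℕ → ℕ → Set (ℕ → ℕ)) (D : List ℕ → ℕ × ℕ → Prop)
    (n t r i' : ℕ) : Set (ℕ → ℕ) :=
  if t = 0 then {X | D (res X i'.unpair.2) (r, i'.unpair.1)}
  else if t = 1 then
    upwS D r.unpair.1 r.unpair.2.unpair.1.unpair.1 r.unpair.2.unpair.1.unpair.2
      r.unpair.2.unpair.2.unpair.1 r.unpair.2.unpair.2.unpair.2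
  else upwF D (C n r i')

theorem upwC_closed (C : ℕ → ℕ → ℕ → Set (ℕ → ℕ)) (hC : ∀ n m i, IsClosed (C n m i))
    (D : List ℕ → ℕ × ℕ → Prop) (n t r i' : ℕ) : IsClosed (upwC C D n t r i') := by
  unfold upwC
  by_cases h1 : t = 0
  · rw [if_pos h1]
    exact (isClopen_dep i'.unpair.2 (fun l => D l (r, i'.unpair.1))).isClosed
  · rw [if_neg h1]
    by_cases h2 : t = 1
    · rw [if_pos h2]
      exact upwS_closed _ _ _ _ _ _
    · rw [if_neg h2]
      exact upwF_closed _ _

theorem UPW : UPW_stmt := by
  classical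
  intro C hC
  -- enumeration of the primitive recursive relations
  have hne : {D : List ℕ → ℕ × ℕ → Prop | PrimrecRel D}.Nonempty := by
    refine ⟨fun _ a => a.1 = a.1, ?_⟩
    exact PrimrecRel.comp₂ (R := fun a b : ℕ => a = b) Primrec.eq (Primrec.fst.comp₂ Primrec₂.right)
      (Primrec.fst.comp₂ Primrec₂.right)
  · obtain ⟨DD, hDD⟩ := countable_primrecRel.exists_eq_range hne
    refine ⟨fun n' m' i' => upwC C (DD n'.unpair.1) n'.unpair.2 m'.unpair.1 m'.unpair.2 i',
      fun n' m' i' => upwC_closed C hC _ _ _ _ _, fun X => ⟨?_, ?_⟩⟩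
    · rintro ⟨f, hfX, n, hn⟩
      obtain ⟨D, hD, hDf⟩ := s1_graph hfX
      have hmem : D ∈ Set.range DD := by rw [← hDD]; exact hD
      obtain ⟨d, rfl⟩ := hmem
      refine ⟨Nat.pair d n, fun m' => ?_⟩
      simp only [Nat.unpair_pair]
      by_cases h1 : m'.unpair.1 = 0
      · obtain ⟨k, hk⟩ := (hDf (m'.unpair.2, f m'.unpair.2)).1 rfl
        refine ⟨Nat.pair (f m'.unpair.2) k, ?_⟩
        unfold upwC
        rw [if_pos h1]
        simpa [Nat.unpair_pair] using hk
      · by_cases h2 : m'.unpair.1 = 1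
        · refine ⟨0, ?_⟩
          unfold upwC
          rw [if_neg h1, if_pos h2]
          intro hzz ha hb
          have e1 := (hDf (_, _)).2 ⟨_, ha⟩
          have e2 := (hDf (_, _)).2 ⟨_, hb⟩
          exact hzz (e1.symm.trans e2)
        · obtain ⟨i, hi⟩ := hn m'.unpair.2
          refine ⟨i, ?_⟩
          unfold upwC
          rw [if_neg h1, if_neg h2]
          intro τ hτ hall
          apply hτ f hi
          apply List.ext_getElem
          · simp
          · intro j hj1 hj2
            have e1 := (hDf (j, τ.getD j 0)).2 (hall j hj2)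
            simp only at e1
            simp only [res, List.getElem_map, List.getElem_range]
            rw [e1]
            simp [List.getD_eq_getElem?_getD, hj2]
    · rintro ⟨n', hn'⟩
      have hT : ∀ x, ∃ z k, DD n'.unpair.1 (res X k) (x, z) := by
        intro x
        obtain ⟨i', hi'⟩ := hn' (Nat.pair 0 x)
        simp only [Nat.unpair_pair] at hi'
        unfold upwC at hi'
        rw [if_pos rfl] at hi'
        exact ⟨_, _, hi'⟩
      have hS : ∀ x z z' k k', DD n'.unpair.1 (res X k) (x, z) →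
          DD n'.unpair.1 (res X k') (x, z') → z = z' := by
        intro x z z' k k' h h'
        obtain ⟨i', hi'⟩ := hn' (Nat.pair 1 (Nat.pair x (Nat.pair (Nat.pair z z') (Nat.pair k k'))))
        simp only [Nat.unpair_pair] at hi'
        unfold upwC at hi'
        rw [if_neg one_ne_zero, if_pos rfl] at hi'
        simp only [Nat.unpair_pair] at hi'
        by_contra hne
        exact hi' hne h h'
      choose f hf using hT
      have hgr : ∀ a : ℕ × ℕ, (f a.1 = a.2) ↔ ∃ k, DD n'.unpair.1 (res X k) a := by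
        rintro ⟨x, z⟩
        show f x = z ↔ _
        constructor
        · intro he
          rw [← he]
          exact hf x
        · rintro ⟨k, hk⟩
          obtain ⟨k', hk'⟩ := hf x
          exact hS x _ _ _ _ hk' hk
      have hDp : PrimrecRel (DD n'.unpair.1) := by
        have : DD n'.unpair.1 ∈ {D : List ℕ → ℕ × ℕ → Prop | PrimrecRel D} := by
          rw [hDD]; exact Set.mem_range_self _
        exact this
      have hri : RI X f := RI.of_s1 ⟨_, hDp, hgr⟩
      refine ⟨f, RecursiveIn.iff_nat.2 hri, n'.unpair.2, fun m => ?_⟩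
      obtain ⟨i', hi'⟩ := hn' (Nat.pair 2 m)
      refine ⟨i', ?_⟩
      simp only [Nat.unpair_pair] at hi'
      unfold upwC at hi'
      rw [if_neg (by norm_num), if_neg (by norm_num)] at hi'
      by_contra hnot
      obtain ⟨K, hK⟩ := upw_sep (hC _ _ _) hnot
      apply hi' (res f K)
      · intro g hg
        rw [res_length]
        exact hK g hg
      · intro j hj
        rw [res_length] at hj
        rw [res_getD f hj]
        exact hf j

end Pool.Agent.helper63.Dg4
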